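import Pool.Agent.H66.AV.TF
import Pool.Agent.H18.IP.PLT
import Pool.Agent.H70.OQ.NDV

/-!
Row ALG of the board avh_modules: the language on tables, and on which strings it depends.
-/

set_option autoImplicit false

namespace Pool.Agent.H8.AVH

open Finset Pool.Agent.H66.AV Pool.Agent.H6.NB Pool.Agent.H70.OQ Pool.Agent.H70.EH
open Pool.Agent.H70.EI Pool.Agent.H78.XQ

theorem nd_pre (O : List Bool → Bool) (p : List Bool) : ∀ (k l : ℕ) (w : List Bool),
    Nd O k l (p ++ w) ↔ Nd (fun s => O (p ++ s.tail)) k l (false :: w) := by
  intro k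
  induction k with
  | zero =>
    intro l w
    exact Iff.rfl
  | succ k ih =>
    intro l w
    change (∃ v : List Bool, v.length = l ∧ ¬ Nd O k (2 * l) (p ++ w ++ v)) ↔
      (∃ v : List Bool, v.length = l ∧
        ¬ Nd (fun s => O (p ++ s.tail)) k (2 * l) (false :: (w ++ v)))
    refine exists_congr fun v => and_congr_right fun _ => not_congr ?_
    rw [List.append_assoc]
    exact ih (2 * l) (w ++ v)

theorem alang_iff (k : ℕ) (O : List Bool → Bool) (x : List Bool) :
    x ∈ alang k O ↔ ∃ u : List Bool, u.length = x.length ∧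
      Special k (fun s => O (false :: (hdr k x ++ s.tail))) u := by
  refine exists_congr fun u => and_congr_right fun _ => not_congr ?_
  exact nd_pre O (false :: hdr k x) k (2 * u.length) u

theorem pf_ALG : T_ALG := by
  refine ⟨fun n k z x O h => ?_, fun k x O O' h => ?_⟩
  · rw [alang_iff]
    have key : ∀ (b : (Fin n → Bool) → Bool) (H : Hid (Fin n → Bool) (Ys n) k),
        (∀ q, tbl z x q = sv b k H q) →
        ((∃ u : List Bool, u.length = (List.ofFn x).length ∧
          Special k (fun s => O (false :: (hdr k (List.ofFn x) ++ s.tail))) u) ↔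
          ∃ y : Fin n → Bool, b y = false) := by
      intro b H hb
      have h1 := NDV.ndv k n (fun s => O (false :: (hdr k (List.ofFn x) ++ s.tail))) b H
        (fun q => (h q).trans (hb q))
      constructor
      · rintro ⟨u, hu, hs⟩
        rw [List.length_ofFn] at hu
        obtain ⟨y, rfl⟩ := NDV.exists_ofFn hu
        exact ⟨y, (h1 y).1 hs⟩
      · rintro ⟨y, hy⟩
        exact ⟨List.ofFn y, by rw [List.length_ofFn, List.length_ofFn], (h1 y).2 hy⟩
    by_cases hz : (z x).1 = true
    · rw [key (fun x' => !decide (x' = (z x).2.2)) (z x).2.1 (fun q => by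
        unfold tbl tabU
        rw [if_pos hz])]
      simp only [hz, iff_true]
      exact ⟨(z x).2.2, by simp⟩
    · rw [key (fun _ => true) (z x).2.1 (fun q => by
        unfold tbl tabT
        rw [if_neg hz])]
      constructor
      · rintro ⟨y, hy⟩
        exact absurd hy (by simp)
      · intro h2
        exact absurd h2 hz
  · refine exists_congr fun u => and_congr_right fun hu => not_congr ?_
    refine Pool.Agent.H18.IP.nd_congr O O' k (2 * u.length) (false :: (hdr k x ++ u))
      fun w hw => h w ?_
    have e0 : (hdr k x).length = k + (x.length + 1) := by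
      unfold hdr
      rw [List.length_append, List.length_replicate, List.length_cons]
    rw [hw, List.length_cons, List.length_append, e0, hu]
    have h1 : 1 ≤ 2 ^ k := Nat.one_le_two_pow
    obtain ⟨m, hm⟩ : ∃ m, 2 ^ k = m + 1 := ⟨2 ^ k - 1, by omega⟩
    rw [pow_succ, hm]
    have e1 : m + 1 - 1 = m := by omega
    rw [e1]
    have e2 : (m + 1) * 2 * x.length = m * (2 * x.length) + 2 * x.length := by ring
    rw [e2]
    omega

end Pool.Agent.H8.AVH
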